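import Pool.Agent.Helper36_X1.Stmts3
import Pool.Agent.Helper59_PP.Lift
import Pool.Agent.Helper66_BN.Bnm

/-!
Module YYX of the squad X1: the alternating sum vanishes for `D`.
-/

set_option autoImplicit false

open scoped BigOperators

noncomputable section

namespace Pool.Agent.PP.X1.H90

open Pool.Agent.Helper51_AWC Pool.Agent.Helper79_WRA Pool.Agent.PP Pool.Agent.PP.X1

theorem lnum_zero (hibf : IbfStmt) {ℓ : ℕ} {F : Type} [Field F] (hF : GoodF ℓ F) {D : Type}
    [Group D] [Finite D] (X : Subgroup D) : lnum X (0 : D → F) = 0 := by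
  have h2 : {f : X → F | f ∈ IBr F X ∧ actF (fun t : X => (0 : D → F) t) f = f} = ∅ := by
    ext f
    simp only [Set.mem_ofPred_eq, Set.mem_empty_iff_false, iff_false, not_and]
    intro hf h3
    refine BN.H66.ibr_ne_zero hibf hF hf ?_
    rw [← h3]
    funext x
    simp only [actF, Pi.zero_apply, zero_mul, finsum_zero]
  unfold lnum
  rw [h2, Set.ncard_empty]

open Classical in
/-- YYX -/
theorem yyx (hX : XflStmt) (hNum : NumStmt) (hT : TogStmt) (hS : StfStmt) (hibf : IbfStmt) :
    YyxStmt := by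
  intro ℓ _ F _ hF D _ _ M R hR e he hz hpos
  have hMn := hR.normal
  have := Fintype.ofFinite D
  have hx := hX ℓ F D M R hR e he.1
  have hA : (Nat.card (AD R) : ℤ) ≠ 0 := by
    have : 0 < Nat.card (AD R) := Nat.card_pos
    omega
  suffices hsum : ∑ f ∈ (Finset.univ : Finset (Finset (Finset (Fin R.r)))).filter
      (fun f => Flag f),
      (-1 : ℤ) ^ f.card * ((Nat.card (Df R f ⊓ AD R : Subgroup D) : ℤ) *
        (lnum (Df R f) e : ℤ)) = 0 by
    rw [hsum, mul_zero] at hx
    exact (mul_eq_zero.1 hx).resolve_left hA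
  by_cases h0 : e = 0
  · subst h0
    refine Finset.sum_eq_zero fun f _ => ?_
    rw [lnum_zero hibf hF]
    simp
  obtain ⟨ζ, hζ⟩ := BN.H66.exists_zeta h0 hz
  obtain ⟨τ, hτ⟩ := H59.exists_lift ℓ F hF
  have hB : (Nat.card R.B : ℂ) ≠ 0 := by
    have : 0 < Nat.card R.B := Nat.card_pos
    exact_mod_cast this.ne'
  -- the set of the characters of `B`
  let S : D → D → Set (R.B → F) := fun x y => {lam : R.B → F | lam ∈ IBr F R.B ∧
          (∀ (z : Subgroup.center D) (g g' : R.B), ((g' : M) : D) = z * ((g : M) : D) →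
            ζ z * lam g' = lam g) ∧
          Fxd R.B lam (MulAut.conjNormal x) ∧ Fxd R.B lam (MulAut.conjNormal y)}
  have hSf : ∀ x y, (S x y).Finite := fun x y =>
    ((hibf ℓ F hF R.B).1).subset fun lam h => h.1
  have hnum : ∀ f : Finset (Finset (Fin R.r)), Flag f →
      (Nat.card (Df R f ⊓ AD R : Subgroup D) : ℂ) * Nat.card R.B * (lnum (Df R f) e : ℂ) =
      ∑ x : D, ∑ y : D, ∑ lam ∈ (hSf x y).toFinset,
        if x ∈ Df R f ⊓ AD R ∧ y ∈ Df R f ⊓ AD R ∧ x * y * x⁻¹ * y⁻¹ ∈ up R.B then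
          ((KS (f.inf id) (Ms R lam) (piA R (MulAut.conjNormal x)) (piA R (MulAut.conjNormal y))
          (f = ∅)).card : ℂ) *
          τ (tca R.B lam (MulAut.conjNormal x) (MulAut.conjNormal y) (cM M x y)) else 0 := by
    intro f hf
    rw [hNum ℓ F hF D M R hR ζ e he hζ h0 hpos f hf τ hτ]
    rw [finsum_eq_sum_of_fintype]
    refine Finset.sum_congr rfl fun x _ => ?_
    rw [finsum_eq_sum_of_fintype]
    refine Finset.sum_congr rfl fun y _ => ?_
    split_ifs with hc
    · exact finsum_mem_eq_finite_toFinset_sum _ (hSf x y)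
    · rw [Finset.sum_const_zero]
  have hstf := hS ℓ D M R hR
  -- the sum over the flags
  have hcomplex : (∑ f ∈ (Finset.univ : Finset (Finset (Finset (Fin R.r)))).filter
      (fun f => Flag f), (-1 : ℂ) ^ f.card *
        ((Nat.card (Df R f ⊓ AD R : Subgroup D) : ℂ) * Nat.card R.B *
          (lnum (Df R f) e : ℂ))) = 0 := by
    have e1 : ∀ f ∈ (Finset.univ : Finset (Finset (Finset (Fin R.r)))).filter
        (fun f => Flag f), (-1 : ℂ) ^ f.card *
        ((Nat.card (Df R f ⊓ AD R : Subgroup D) : ℂ) * Nat.card R.B *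
          (lnum (Df R f) e : ℂ)) = ∑ x : D, ∑ y : D, ∑ lam ∈ (hSf x y).toFinset,
        (-1 : ℂ) ^ f.card *
        if x ∈ Df R f ⊓ AD R ∧ y ∈ Df R f ⊓ AD R ∧ x * y * x⁻¹ * y⁻¹ ∈ up R.B then
          ((KS (f.inf id) (Ms R lam) (piA R (MulAut.conjNormal x)) (piA R (MulAut.conjNormal y))
          (f = ∅)).card : ℂ) *
          τ (tca R.B lam (MulAut.conjNormal x) (MulAut.conjNormal y) (cM M x y)) else 0 := by
      intro f hf
      rw [hnum f (Finset.mem_filter.1 hf).2, Finset.mul_sum]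
      refine Finset.sum_congr rfl fun x _ => ?_
      rw [Finset.mul_sum]
      refine Finset.sum_congr rfl fun y _ => ?_
      rw [Finset.mul_sum]
    rw [Finset.sum_congr rfl e1, Finset.sum_comm]
    refine Finset.sum_eq_zero fun x _ => ?_
    rw [Finset.sum_comm]
    refine Finset.sum_eq_zero fun y _ => ?_
    rw [Finset.sum_comm]
    refine Finset.sum_eq_zero fun lam _ => ?_
    by_cases hxy : x ∈ AD R ∧ y ∈ AD R ∧ x * y * x⁻¹ * y⁻¹ ∈ up R.B
    · obtain ⟨hxA, hyA, hc⟩ := hxy
      have htog := hT R.r (piA R (MulAut.conjNormal x)) (piA R (MulAut.conjNormal y)) (Ms R lam)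
      have htog' : (∑ f ∈ (Finset.univ : Finset (Finset (Finset (Fin R.r)))).filter
          (fun f => Flag f ∧ ∀ J ∈ f,
            J.map (piA R (MulAut.conjNormal x : MulAut M)).toEmbedding = J ∧
            J.map (piA R (MulAut.conjNormal y : MulAut M)).toEmbedding = J),
          (-1 : ℂ) ^ f.card * ((KS (f.inf id) (Ms R lam) (piA R (MulAut.conjNormal x))
            (piA R (MulAut.conjNormal y)) (f = ∅)).card : ℂ)) = 0 := by
        exact_mod_cast congrArg (fun n : ℤ => (n : ℂ)) htog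
      have e2 : ∀ f ∈ (Finset.univ : Finset (Finset (Finset (Fin R.r)))).filter
          (fun f => Flag f), ((-1 : ℂ) ^ f.card *
          if x ∈ Df R f ⊓ AD R ∧ y ∈ Df R f ⊓ AD R ∧ x * y * x⁻¹ * y⁻¹ ∈ up R.B then
            ((KS (f.inf id) (Ms R lam) (piA R (MulAut.conjNormal x))
              (piA R (MulAut.conjNormal y)) (f = ∅)).card : ℂ) *
            τ (tca R.B lam (MulAut.conjNormal x) (MulAut.conjNormal y) (cM M x y)) else 0) =
          if (∀ J ∈ f, J.map (piA R (MulAut.conjNormal x : MulAut M)).toEmbedding = J ∧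
            J.map (piA R (MulAut.conjNormal y : MulAut M)).toEmbedding = J) then
          ((-1 : ℂ) ^ f.card * ((KS (f.inf id) (Ms R lam) (piA R (MulAut.conjNormal x))
            (piA R (MulAut.conjNormal y)) (f = ∅)).card : ℂ)) *
            τ (tca R.B lam (MulAut.conjNormal x) (MulAut.conjNormal y) (cM M x y)) else 0 := by
        intro f hf
        have hs5 := (hstf f (Finset.mem_filter.1 hf).2).2.2.2.2
        have hiff : (x ∈ Df R f ⊓ AD R ∧ y ∈ Df R f ⊓ AD R ∧ x * y * x⁻¹ * y⁻¹ ∈ up R.B) ↔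
            ∀ J ∈ f, J.map (piA R (MulAut.conjNormal x : MulAut M)).toEmbedding = J ∧
            J.map (piA R (MulAut.conjNormal y : MulAut M)).toEmbedding = J := by
          rw [Subgroup.mem_inf, Subgroup.mem_inf, hs5 x hxA, hs5 y hyA]
          constructor
          · rintro ⟨⟨h1, -⟩, ⟨h2, -⟩, -⟩ J hJ
            exact ⟨h1 J hJ, h2 J hJ⟩
          · intro h
            exact ⟨⟨fun J hJ => (h J hJ).1, hxA⟩, ⟨fun J hJ => (h J hJ).2, hyA⟩, hc⟩
        by_cases hh : ∀ J ∈ f, J.map (piA R (MulAut.conjNormal x : MulAut M)).toEmbedding = J ∧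
            J.map (piA R (MulAut.conjNormal y : MulAut M)).toEmbedding = J
        · rw [if_pos (hiff.2 hh), if_pos hh]
          ring
        · rw [if_neg (fun h => hh (hiff.1 h)), if_neg hh, mul_zero]
      rw [Finset.sum_congr rfl e2, ← Finset.sum_filter, Finset.filter_filter, ← Finset.sum_mul,
        htog', zero_mul]
    · refine Finset.sum_eq_zero fun f _ => ?_
      rw [if_neg, mul_zero]
      rintro ⟨h1, h2, h3⟩
      exact hxy ⟨(Subgroup.mem_inf.1 h1).2, (Subgroup.mem_inf.1 h2).2, h3⟩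
  have h1 : ((∑ f ∈ (Finset.univ : Finset (Finset (Finset (Fin R.r)))).filter
      (fun f => Flag f),
      (-1 : ℤ) ^ f.card * ((Nat.card (Df R f ⊓ AD R : Subgroup D) : ℤ) *
        (lnum (Df R f) e : ℤ)) : ℤ) : ℂ) * Nat.card R.B = 0 := by
    rw [← hcomplex]
    push_cast
    rw [Finset.sum_mul]
    refine Finset.sum_congr rfl fun f _ => ?_
    ring
  have h2 := (mul_eq_zero.1 h1).resolve_right hB
  exact_mod_cast h2

end Pool.Agent.PP.X1.H90
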